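import Pool.Agent.Y121.ZI.Stm

/-!
# Project ZI, job GROW: permutation operators on tensor powers
-/

set_option autoImplicit false
set_option linter.all false

open scoped TensorProduct

universe u v w

namespace Pool.Agent.Y261.ZI

open Module Pool.Agent.Y133.Half Pool.Agent.Y121.ZI Pool.Agent.Y121.ZI.NCTheory

variable {K : Type u} [Field K] [CharZero K] {T : NCTheory.{u, v, w} K} {A : T.Obj}

/-- there is a basis of homogeneous vectors -/
theorem exists_hom_basis (A : T.Obj) : ∃ e : Basis (Fin (finrank K (T.H A))) K (T.H A),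
    ∀ j, T.par A (e j) = e j ∨ T.par A (e j) = -(e j) := by
  set S : Set (T.H A) := {x | T.par A x = x ∨ T.par A x = -x} with hS
  have hspan : ⊤ ≤ Submodule.span K S := by
    intro x _
    rw [← ev_add_od x]
    exact Submodule.add_mem _ (Submodule.subset_span (Or.inl (par_ev x)))
      (Submodule.subset_span (Or.inr (par_od x)))
  let b := Basis.ofSpan hspan
  refine ⟨b.reindex (b.indexEquiv (Module.finBasis K (T.H A))), fun j => ?_⟩
  rw [Basis.reindex_apply]
  exact Basis.ofSpan_subset hspan ⟨_, rfl⟩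

variable {D : ℕ} (e : Basis (Fin D) K (T.H A))

/-- the basis given by words -/
noncomputable def wb : ∀ n, Basis (Fin n → Fin D) K (T.H (T.pow A n))
  | 0 => (basisUnique (Fin 0 → Fin D) (finrank_one (T := T)) : Basis _ K (T.H T.one)).map
      (LinearEquiv.refl K _)
  | n + 1 => ((e.tensorProduct (wb n)).map (T.kun A (T.pow A n))).reindex
      (Fin.consEquiv fun _ => Fin D)

theorem wb_succ (n : ℕ) (w : Fin (n + 1) → Fin D) :
    wb e (n + 1) w = kx (e (w 0)) (wb e n fun i => w i.succ) := by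
  have h1 : wb e (n + 1) w = ((e.tensorProduct (wb e n)).map (T.kun A (T.pow A n))).reindex
      (Fin.consEquiv fun _ => Fin D) w := rfl
  rw [h1, Basis.reindex_apply]
  have h2 : (Fin.consEquiv fun _ => Fin D).symm w = (w 0, fun i => w i.succ) := rfl
  rw [h2, Basis.map_apply, Basis.tensorProduct_apply]
  rfl

/-- signed permutations of the words -/
def Rl (n : ℕ) (σ : Equiv.Perm (Fin n)) (θ : T.H (T.pow A n) →ₗ[K] T.H (T.pow A n)) : Prop :=
  ∃ s : (Fin n → Fin D) → K, (∀ w, s w = 1 ∨ s w = -1) ∧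
    ∀ w, θ (wb e n (w ∘ σ)) = s w • wb e n w

theorem Rl.one (n : ℕ) : Rl e n 1 LinearMap.id :=
  ⟨fun _ => 1, fun _ => Or.inl rfl, fun w => by rw [one_smul]; rfl⟩

theorem Rl.mul {n : ℕ} {σ τ : Equiv.Perm (Fin n)} {θ η : T.H (T.pow A n) →ₗ[K] T.H (T.pow A n)}
    (h : Rl e n σ θ) (h' : Rl e n τ η) : Rl e n (σ * τ) (θ ∘ₗ η) := by
  obtain ⟨s, hs, h1⟩ := h
  obtain ⟨r, hr, h2⟩ := h'
  refine ⟨fun w => r (w ∘ σ) * s w, fun w => ?_, fun w => ?_⟩
  · show r (w ∘ σ) * s w = 1 ∨ r (w ∘ σ) * s w = -1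
    rcases hs w with h | h <;> rcases hr (w ∘ σ) with h' | h' <;> rw [h, h'] <;> norm_num
  · show _ = (r (w ∘ σ) * s w) • _
    have h3 : w ∘ (σ * τ : Equiv.Perm (Fin n)) = (w ∘ σ) ∘ τ := rfl
    rw [LinearMap.comp_apply, h3, h2, map_smul, h1, smul_smul]

/-- the permutation `σ` is realized by an invertible correspondence -/
def Rd (n : ℕ) (σ : Equiv.Perm (Fin n)) : Prop :=
  ∃ θ ∈ T.S (T.pow A n) (T.pow A n), ∃ θ' ∈ T.S (T.pow A n) (T.pow A n),
    θ' ∘ₗ θ = LinearMap.id ∧ θ ∘ₗ θ' = LinearMap.id ∧ Rl e n σ θ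

theorem Rd.one (n : ℕ) : Rd e n 1 :=
  ⟨LinearMap.id, S_id, LinearMap.id, S_id, rfl, rfl, Rl.one e n⟩

theorem Rd.mul {n : ℕ} {σ τ : Equiv.Perm (Fin n)} (h : Rd e n σ) (h' : Rd e n τ) :
    Rd e n (σ * τ) := by
  obtain ⟨θ, hθ, θ', hθ', h1, h2, h3⟩ := h
  obtain ⟨η, hη, η', hη', k1, k2, k3⟩ := h'
  refine ⟨θ ∘ₗ η, S_comp hη hθ, η' ∘ₗ θ', S_comp hθ' hη', ?_, ?_, Rl.mul e h3 k3⟩
  · calc (η' ∘ₗ θ') ∘ₗ θ ∘ₗ η = η' ∘ₗ (θ' ∘ₗ θ) ∘ₗ η := rfl
      _ = _ := by rw [h1, LinearMap.id_comp, k1]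
  · calc (θ ∘ₗ η) ∘ₗ η' ∘ₗ θ' = θ ∘ₗ (η ∘ₗ η') ∘ₗ θ' := rfl
      _ = _ := by rw [k2, LinearMap.id_comp, h2]

/-- the symmetry on homogeneous vectors -/
theorem exists_swap' (he : ∀ j, T.par A (e j) = e j ∨ T.par A (e j) = -(e j)) :
    ∃ s ∈ T.S (T.ten A A) (T.ten A A), s ∘ₗ s = LinearMap.id ∧ ∃ ε : Fin D → Fin D → K,
      (∀ a b, ε a b = 1 ∨ ε a b = -1) ∧
      ∀ a b, s (kx (e a) (e b)) = ε a b • (kx (e b) (e a) : T.H (T.ten A A)) := by
  classical
  obtain ⟨s, hs, h1⟩ := exists_swap A A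
  set ε : Fin D → Fin D → K := fun a b =>
    if T.par A (e a) = e a ∨ T.par A (e b) = e b then 1 else -1 with hε
  have hev : ∀ x : T.H A, T.par A x = x → ev x = x ∧ od x = 0 := by
    intro x hx
    have h2 : od x = 0 := by
      unfold od
      rw [hx, sub_self, smul_zero]
    refine ⟨?_, h2⟩
    have h3 := ev_add_od x
    rwa [h2, add_zero] at h3
  have hod : ∀ x : T.H A, T.par A x = -x → ev x = 0 ∧ od x = x := by
    intro x hx
    have h2 : ev x = 0 := by
      unfold ev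
      rw [hx, add_neg_cancel, smul_zero]
    refine ⟨h2, ?_⟩
    have h3 := ev_add_od x
    rwa [h2, zero_add] at h3
  have hform : ∀ a b, s (kx (e a) (e b)) = ε a b • (kx (e b) (e a) : T.H (T.ten A A)) := by
    intro a b
    rw [h1]
    by_cases ha : T.par A (e a) = e a
    · rw [(hev _ ha).1, (hev _ ha).2, kx_zero_right, add_zero]
      simp only [hε]
      rw [if_pos (Or.inl ha), one_smul]
    · have ha' := (he a).resolve_left ha
      rw [(hod _ ha').1, (hod _ ha').2, kx_zero_right, zero_add]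
      by_cases hb : T.par A (e b) = e b
      · simp only [hε]
        rw [if_pos (Or.inr hb), one_smul, hb]
      · have hb' := (he b).resolve_left hb
        simp only [hε]
        rw [if_neg (fun h => h.elim ha hb), hb', ← neg_one_smul K (e b), kx_smul_left]
  refine ⟨s, hs, ?_, ε, fun a b => ?_, hform⟩
  · apply ((e.tensorProduct e).map (T.kun A A)).ext
    rintro ⟨a, b⟩
    rw [Basis.map_apply, Basis.tensorProduct_apply]
    show (s ∘ₗ s) (kx (e a) (e b)) = LinearMap.id (kx (e a) (e b))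
    rw [LinearMap.comp_apply, hform, map_smul, hform, smul_smul, LinearMap.id_apply]
    have h2 : ε a b * ε b a = 1 := by
      simp only [hε]
      by_cases h3 : T.par A (e a) = e a ∨ T.par A (e b) = e b
      · rw [if_pos h3, if_pos h3.symm, one_mul]
      · rw [if_neg h3, if_neg (fun h => h3 h.symm)]
        norm_num
    rw [h2, one_smul]
  · simp only [hε]
    split_ifs
    · exact Or.inl rfl
    · exact Or.inr rfl

theorem Rd.swap0 (he : ∀ j, T.par A (e j) = e j ∨ T.par A (e j) = -(e j)) (n : ℕ) :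
    Rd e (n + 2) (Equiv.swap 0 1) := by
  obtain ⟨s, hs, hss, ε, hε, hform⟩ := exists_swap' e he
  obtain ⟨α, hα, α', hα', h1, h2⟩ := exists_assoc A A (T.pow A n)
  obtain ⟨ξ, hξ⟩ : ∃ ξ : T.H (T.ten (T.ten A A) (T.pow A n)) →ₗ[K]
      T.H (T.ten (T.ten A A) (T.pow A n)), ξ = ex s LinearMap.id := ⟨_, rfl⟩
  have hs' : ξ ∈ T.S (T.ten (T.ten A A) (T.pow A n)) (T.ten (T.ten A A) (T.pow A n)) := by
    rw [hξ]
    exact S_ex hs S_id
  have hα1 : α' ∘ₗ α = LinearMap.id :=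
    kx_ext₃ fun x y z => by rw [LinearMap.comp_apply, h1, h2, LinearMap.id_apply]
  have hα2 : α ∘ₗ α' = LinearMap.id :=
    kx_ext₃' fun x y z => by rw [LinearMap.comp_apply, h2, h1, LinearMap.id_apply]
  have hex : ξ ∘ₗ ξ = LinearMap.id := by
    rw [hξ, ex_comp, hss, LinearMap.comp_id, ex_id]
  set θ : T.H (T.pow A (n + 2)) →ₗ[K] T.H (T.pow A (n + 2)) := α ∘ₗ ξ ∘ₗ α' with hθ
  have hmem : θ ∈ T.S (T.pow A (n + 2)) (T.pow A (n + 2)) :=
    S_comp (S_comp hα' hs') hα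
  have hinv : θ ∘ₗ θ = LinearMap.id := by
    have k1 : θ ∘ₗ θ = α ∘ₗ ξ ∘ₗ (α' ∘ₗ α) ∘ₗ ξ ∘ₗ α' := rfl
    have k2 : α ∘ₗ (ξ ∘ₗ ξ) ∘ₗ α' = α ∘ₗ ξ ∘ₗ ξ ∘ₗ α' := rfl
    rw [k1, hα1, LinearMap.id_comp, ← k2, hex, LinearMap.id_comp]
    exact hα2
  refine ⟨θ, hmem, θ, hmem, hinv, hinv, fun w => ε (w 1) (w 0), fun w => hε _ _, fun w => ?_⟩
  rw [wb_succ, wb_succ, wb_succ, wb_succ]
  have e0 : (w ∘ (Equiv.swap 0 1 : Equiv.Perm (Fin (n + 2)))) 0 = w 1 := by
    rw [Function.comp_apply, Equiv.swap_apply_left]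
  have e1 : (w ∘ (Equiv.swap 0 1 : Equiv.Perm (Fin (n + 2)))) (Fin.succ 0) = w 0 := by
    rw [Function.comp_apply, Fin.succ_zero_eq_one, Equiv.swap_apply_right]
  have e2 : (fun i : Fin n => (w ∘ (Equiv.swap 0 1 : Equiv.Perm (Fin (n + 2)))) i.succ.succ) =
      fun i : Fin n => w i.succ.succ := by
    funext i
    rw [Function.comp_apply, Equiv.swap_apply_of_ne_of_ne]
    · exact Fin.succ_ne_zero _
    · intro h
      rw [← Fin.succ_zero_eq_one] at h
      exact Fin.succ_ne_zero _ (Fin.succ_injective _ h)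
  rw [e0, e1, e2, Fin.succ_zero_eq_one]
  show α (ξ (α' (kx (e (w 1)) (kx (e (w 0)) (wb e n fun i => w i.succ.succ))))) =
    ε (w 1) (w 0) • _
  rw [h2, hξ, ex_kx, hform, kx_smul_left, map_smul, LinearMap.id_apply, h1]
  rfl

theorem Rd.cons {n : ℕ} {σ : Equiv.Perm (Fin n)} (h : Rd e n σ) (τ : Equiv.Perm (Fin (n + 1)))
    (h0 : τ 0 = 0) (hτ : ∀ i : Fin n, τ i.succ = (σ i).succ) : Rd e (n + 1) τ := by
  obtain ⟨θ, hθ, θ', hθ', h1, h2, s, hs, h3⟩ := h
  refine ⟨ex LinearMap.id θ, S_ex S_id hθ, ex LinearMap.id θ', S_ex S_id hθ', ?_, ?_,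
    fun w => s fun i => w i.succ, fun w => hs _, fun w => ?_⟩
  · exact (ex_comp _ _ _ _).trans (by rw [h1, LinearMap.comp_id]; exact ex_id)
  · exact (ex_comp _ _ _ _).trans (by rw [h2, LinearMap.comp_id]; exact ex_id)
  · rw [wb_succ, wb_succ]
    have e1 : (w ∘ τ) 0 = w 0 := by rw [Function.comp_apply, h0]
    have e2 : (fun i : Fin n => (w ∘ τ) i.succ) = (fun i : Fin n => w i.succ) ∘ σ := by
      funext i
      rw [Function.comp_apply, Function.comp_apply, hτ]
    rw [e1, e2]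
    refine (ex_kx _ _ _ _).trans ?_
    rw [h3, kx_smul_right, LinearMap.id_apply]
    rfl

theorem Rd.adj (he : ∀ j, T.par A (e j) = e j ∨ T.par A (e j) = -(e j)) : ∀ (n : ℕ) (i : Fin n),
    Rd e (n + 1) (Equiv.swap i.castSucc i.succ)
  | 0, i => i.elim0
  | n + 1, i => by
    refine Fin.cases ?_ (fun j => ?_) i
    · exact Rd.swap0 e he n
    · refine Rd.cons e (Rd.adj he n j) _ ?_ ?_
      · apply Equiv.swap_apply_of_ne_of_ne
        · intro h
          exact absurd (congrArg Fin.val h) (by simp)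
        · exact (Fin.succ_ne_zero _).symm
      · intro k
        have h1 : Fin.castSucc (Fin.succ j) = Fin.succ (Fin.castSucc j) := rfl
        rw [h1]
        by_cases h2 : k = Fin.castSucc j
        · rw [h2, Equiv.swap_apply_left, Equiv.swap_apply_left]
        · by_cases h3 : k = Fin.succ j
          · rw [h3, Equiv.swap_apply_right, Equiv.swap_apply_right]
          · rw [Equiv.swap_apply_of_ne_of_ne h2 h3, Equiv.swap_apply_of_ne_of_ne]
            · exact fun h => h2 (Fin.succ_injective _ h)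
            · exact fun h => h3 (Fin.succ_injective _ h)

theorem Rd.all (he : ∀ j, T.par A (e j) = e j ∨ T.par A (e j) = -(e j)) (n : ℕ)
    (σ : Equiv.Perm (Fin n)) : Rd e n σ := by
  cases n with
  | zero =>
    rw [Subsingleton.elim σ 1]
    exact Rd.one e 0
  | succ n =>
    have h : σ ∈ Submonoid.closure (Set.range fun i : Fin n => Equiv.swap i.castSucc i.succ) := by
      rw [Equiv.Perm.mclosure_swap_castSucc_succ]
      exact Submonoid.mem_top _
    induction h using Submonoid.closure_induction with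
    | mem x hx =>
      obtain ⟨i, rfl⟩ := hx
      exact Rd.adj e he n i
    | one => exact Rd.one e _
    | mul x y _ _ hx hy => exact Rd.mul e hx hy

/-- the group of signed permutations in the correspondences -/
def GG (n : ℕ) : Subgroup (Module.End K (T.H (T.pow A n)))ˣ where
  carrier := {u | (u : Module.End K (T.H (T.pow A n))) ∈ T.S (T.pow A n) (T.pow A n) ∧
    ((u⁻¹ : (Module.End K (T.H (T.pow A n)))ˣ) : Module.End K (T.H (T.pow A n))) ∈
      T.S (T.pow A n) (T.pow A n) ∧ ∃ σ, Rl e n σ (u : Module.End K (T.H (T.pow A n)))}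
  one_mem' := ⟨S_id, by rw [inv_one]; exact S_id, 1, Rl.one e n⟩
  mul_mem' := by
    rintro u u' ⟨h1, h2, σ, h3⟩ ⟨k1, k2, τ, k3⟩
    refine ⟨?_, ?_, σ * τ, ?_⟩
    · rw [Units.val_mul]
      exact S_comp k1 h1
    · rw [mul_inv_rev, Units.val_mul]
      exact S_comp h2 k2
    · rw [Units.val_mul]
      exact Rl.mul e h3 k3
  inv_mem' := by
    rintro u ⟨h1, h2, σ, s, hs, h3⟩
    refine ⟨h2, by rw [inv_inv]; exact h1, σ⁻¹, fun w => s (w ∘ (σ⁻¹ : Equiv.Perm (Fin n))),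
      fun w => hs _, fun w => ?_⟩
    have h4 := h3 (w ∘ (σ⁻¹ : Equiv.Perm (Fin n)))
    have h5 : (w ∘ (σ⁻¹ : Equiv.Perm (Fin n))) ∘ σ = w := by
      funext i
      simp
    rw [h5] at h4
    have h6 : wb e n (w ∘ (σ⁻¹ : Equiv.Perm (Fin n))) = s (w ∘ (σ⁻¹ : Equiv.Perm (Fin n))) •
        (u : Module.End K (T.H (T.pow A n))) (wb e n w) := by
      rw [h4, smul_smul]
      rcases hs (w ∘ (σ⁻¹ : Equiv.Perm (Fin n))) with h | h <;> rw [h] <;> norm_num
    rw [h6, map_smul]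
    congr 1
    have h7 : ((u⁻¹ * u : (Module.End K (T.H (T.pow A n)))ˣ) : Module.End K (T.H (T.pow A n)))
        (wb e n w) = wb e n w := by
      rw [inv_mul_cancel]
      rfl
    exact h7

theorem GG_finite (n : ℕ) : Finite (GG e n) := by
  classical
  set F0 : Set (T.H (T.pow A n)) := Set.range (wb e n) ∪ Set.range (fun w => -(wb e n w)) with hF0
  have hfin : F0.Finite := (Set.finite_range _).union (Set.finite_range _)
  haveI : Finite F0 := hfin
  have hval : ∀ (u : GG e n) (w : Fin n → Fin D),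
      ((u : (Module.End K (T.H (T.pow A n)))ˣ) : Module.End K (T.H (T.pow A n))) (wb e n w) ∈
        F0 := by
    rintro ⟨u, h1, h2, σ, s, hs, h3⟩ w
    have h4 := h3 (w ∘ (σ⁻¹ : Equiv.Perm (Fin n)))
    have h5 : (w ∘ (σ⁻¹ : Equiv.Perm (Fin n))) ∘ σ = w := by
      funext i
      simp
    rw [h5] at h4
    show (u : Module.End K (T.H (T.pow A n))) (wb e n w) ∈ F0
    rw [h4]
    rcases hs (w ∘ (σ⁻¹ : Equiv.Perm (Fin n))) with h | h
    · rw [h, one_smul]
      exact Or.inl ⟨_, rfl⟩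
    · rw [h, neg_one_smul]
      exact Or.inr ⟨_, rfl⟩
  refine Finite.of_injective (β := (Fin n → Fin D) → F0) (fun u w => ⟨_, hval u w⟩) ?_
  intro u u' huu
  apply Subtype.ext
  apply Units.ext
  apply (wb e n).ext
  intro w
  exact congrArg Subtype.val (congrFun huu w)

variable (T)

theorem grow (hmon : ∀ (X : T.Obj), SMon K (T.H X)) : SGrow T := by
  intro A n
  obtain ⟨e, he⟩ := exists_hom_basis (T := T) A
  haveI := GG_finite e n
  have h := hmon (T.pow A n) n (finrank K (T.H A)) (wb e n) (GG e n) inferInstance ?_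
  · rw [finrank_pow, ← _root_.pow_mul] at h
    have h1 : finrank K (Submodule.span K {f : Module.End K (T.H (T.pow A n)) | ∃ g ∈ GG e n,
        (g : Module.End K (T.H (T.pow A n))) = f}) ≤ finrank K (T.S (T.pow A n) (T.pow A n)) := by
      apply Submodule.finrank_mono
      rw [Submodule.span_le]
      rintro f ⟨g, hg, rfl⟩
      exact hg.1
    calc finrank K (T.H A) ^ (2 * n) = finrank K (T.H A) ^ (n * 2) := by rw [mul_comm]
      _ ≤ _ := h
      _ ≤ _ := Nat.mul_le_mul_right _ h1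
  · intro σ
    obtain ⟨θ, hθ, θ', hθ', h1, h2, s, hs, h3⟩ := Rd.all e he n σ
    refine ⟨⟨θ, θ', h2, h1⟩, ⟨hθ, hθ', σ, s, hs, h3⟩, fun w => ⟨s w, ?_, h3 w⟩⟩
    rcases hs w with h | h <;> rw [h] <;> norm_num

end Pool.Agent.Y261.ZI
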